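import Pool.Agent.Y770.FM.Main

/-!
# Partial products and full products that are close to each other
-/

set_option autoImplicit false

open Finset NumberField IsDedekindDomain Filter
open Pool.Agent.H921R2.TatePole (nm two_le_nm nm_summable)

namespace Pool.Agent.Y770.FM

section nf
variable {K : Type} [Field K] [NumberField K] {N M : ℕ}

/-- the logarithms of the pieces of the product are small in the half-plane `Re s ≥ 1/2 + δ` -/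
def A1 (δ c : ℝ) (X : ℕ) (D : ℂ → HeightOneSpectrum (𝓞 K) → ℂ) : Prop :=
  ∀ s : ℂ, 1 / 2 + δ ≤ s.re → |s.im| ≤ (X : ℝ) ^ c → ∀ y x : ℕ, (Real.log X) ^ (1 / c) ≤ y →
    (x : ℝ) ≤ (X : ℝ) ^ c → ‖∑ v ∈ GG K y x, D s v‖ ≤ (y : ℝ) ^ (-c) / 4

/-- the tails of the logarithm are small at the distance `A / log X` of the edge -/
def A2 (η A c : ℝ) (X : ℕ) (D : ℂ → HeightOneSpectrum (𝓞 K) → ℂ) : Prop :=
  ∀ s : ℂ, 1 + A / Real.log X ≤ s.re → |s.im| ≤ (X : ℝ) ^ c → ∀ y : ℕ,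
    (Real.log X) ^ (1 / c) ≤ y → ‖∑' v, D s v - ∑ v ∈ FN K y, D s v‖ ≤ η

/-- the partial products are close to each other in the half-plane `Re s ≥ 1/2 + δ` -/
def R1 (δ c : ℝ) (X : ℕ) (P : ℂ → ℕ → ℂ) : Prop :=
  ∀ s : ℂ, 1 / 2 + δ ≤ s.re → |s.im| ≤ (X : ℝ) ^ c → ∀ y x : ℕ, (Real.log X) ^ (1 / c) ≤ y → y ≤ x →
    (x : ℝ) ≤ (X : ℝ) ^ c → ‖P s x / P s y - 1‖ ≤ (y : ℝ) ^ (-c)

/-- the partial products are close to the product at the distance `A / log X` of the edge -/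
def R2 (η A c : ℝ) (X : ℕ) (L : ℂ → ℂ) (P : ℂ → ℕ → ℂ) : Prop :=
  ∀ s : ℂ, 1 + A / Real.log X ≤ s.re → |s.im| ≤ (X : ℝ) ^ c → ∀ y : ℕ,
    (Real.log X) ^ (1 / c) ≤ y → ‖L s / P s y - 1‖ ≤ η

lemma norm_exp_sub_one {w : ℂ} (h : ‖w‖ ≤ 1) : ‖Complex.exp w - 1‖ ≤ 2 * ‖w‖ :=
  Complex.norm_exp_sub_one_le h

variable {P : ℂ → ℕ → ℂ} {L : ℂ → ℂ} {D : ℂ → HeightOneSpectrum (𝓞 K) → ℂ} {δ c η A : ℝ} {X : ℕ}

lemma R1_of (hP : ∀ s x, 0 < s.re → P s x = Complex.exp (∑ v ∈ FN K x, D s v)) (hδ : 0 < δ)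
    (hc : 0 < c) (hX : 1 ≤ Real.log X)
    (h : ∀ s : ℂ, 1 / 2 + δ ≤ s.re → |s.im| ≤ (X : ℝ) ^ c → ∀ y x : ℕ, (Real.log X) ^ (1 / c) ≤ y →
      (x : ℝ) ≤ (X : ℝ) ^ c → ‖∑ v ∈ GG K y x, D s v‖ ≤ (y : ℝ) ^ (-c) / 2) : R1 δ c X P := by
  intro s hs hs2 y x hy hyx hx
  have hyr : (1 : ℝ) ≤ y := le_trans (Real.one_le_rpow hX (by positivity)) hy
  have h1 := h s hs hs2 y x hy hx
  have h3 : (y : ℝ) ^ (-c) ≤ 1 := Real.rpow_le_one_of_one_le_of_nonpos hyr (by linarith)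
  rw [hP s x (by linarith), hP s y (by linarith), ← Complex.exp_sub, sum_FN hyx]
  refine (norm_exp_sub_one (h1.trans (by linarith))).trans ?_
  linarith

lemma R2_of (hP : ∀ s x, 0 < s.re → P s x = Complex.exp (∑ v ∈ FN K x, D s v))
    (hL : ∀ s, 1 < s.re → L s = Complex.exp (∑' v, D s v)) (hA : 0 < A) (hX : 1 ≤ Real.log X)
    {η' : ℝ} (hη1 : η' ≤ 1) (hη : η' ≤ η)
    (h : ∀ s : ℂ, 1 + A / Real.log X ≤ s.re → |s.im| ≤ (X : ℝ) ^ c → ∀ y : ℕ,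
      (Real.log X) ^ (1 / c) ≤ y → ‖∑' v, D s v - ∑ v ∈ FN K y, D s v‖ ≤ η' / 2) :
    R2 η A c X L P := by
  intro s hs hs2 y hy
  have h0 : 0 < A / Real.log X := by positivity
  have h1 := h s hs hs2 y hy
  rw [hP s y (by linarith), hL s (by linarith), ← Complex.exp_sub]
  refine (norm_exp_sub_one (h1.trans (by linarith))).trans ?_
  linarith

/-- the partial product -/
noncomputable def PP (e : HeightOneSpectrum (𝓞 K) → Fin N → ℂ)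
    (γ : HeightOneSpectrum (𝓞 K) → Fin M → ℂ) (s : ℂ) (x : ℕ) : ℂ :=
  ∏ v ∈ FN K x, fc (e v) (γ v) v s

/-- the full product -/
noncomputable def PL (e : HeightOneSpectrum (𝓞 K) → Fin N → ℂ)
    (γ : HeightOneSpectrum (𝓞 K) → Fin M → ℂ) (s : ℂ) : ℂ := ∏' v, fc (e v) (γ v) v s

lemma PP_exp {e : HeightOneSpectrum (𝓞 K) → Fin N → ℂ} {γ : HeightOneSpectrum (𝓞 K) → Fin M → ℂ}
    (he : ∀ v j, ‖e v j‖ ≤ 1) (hγ : ∀ v l, ‖γ v l‖ ≤ 1) {s : ℂ} (hs : 0 < s.re) (x : ℕ) :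
    PP e γ s x = Complex.exp (∑ v ∈ FN K x, el (e v) (γ v) v s) := by
  unfold PP
  rw [Complex.exp_sum]
  exact Finset.prod_congr rfl fun v _ => fc_eq (he v) (hγ v) hs

lemma el_summable {e : HeightOneSpectrum (𝓞 K) → Fin N → ℂ}
    {γ : HeightOneSpectrum (𝓞 K) → Fin M → ℂ}
    (he : ∀ v j, ‖e v j‖ ≤ 1) (hγ : ∀ v l, ‖γ v l‖ ≤ 1) {s : ℂ} (hs : 1 < s.re) :
    Summable fun v => el (e v) (γ v) v s :=
  Summable.of_norm_bounded ((nm_summable (x := s.re) hs).mul_left (2 * ((N : ℝ) * M)))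
    fun v => el_le (he v) (hγ v) (half_of_one hs.le)

lemma PL_exp {e : HeightOneSpectrum (𝓞 K) → Fin N → ℂ} {γ : HeightOneSpectrum (𝓞 K) → Fin M → ℂ}
    (he : ∀ v j, ‖e v j‖ ≤ 1) (hγ : ∀ v l, ‖γ v l‖ ≤ 1) {s : ℂ} (hs : 1 < s.re) :
    PL e γ s = Complex.exp (∑' v, el (e v) (γ v) v s) := by
  have h1 := el_summable he hγ hs
  rw [← h1.hasSum.cexp.tprod_eq]
  unfold PL
  exact tprod_congr fun v => fc_eq (he v) (hγ v) (by linarith)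

end nf

end Pool.Agent.Y770.FM
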