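import Pool.Agent.Y770.EP.Count
import Pool.Agent.TH942.ES.NF
import Pool.Agent.H921R2.TatePole.Base

/-!
# Families of systems of eigenvalues over the integral points of a line: the local factors
-/

set_option autoImplicit false

open Finset NumberField IsDedekindDomain
open Pool.Agent.H921R2.TatePole (nm two_le_nm below deg nm_eq nm_summable fiber_card_le
  summable_primes_rpow card_above)
open Pool.Agent.Y770.EP (Sys SP PR mem_PR Good)

namespace Pool.Agent.Y770.FM

section nf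
variable {K : Type} [Field K] [NumberField K] {N M : ℕ}

lemma nm_pos' (v : HeightOneSpectrum (𝓞 K)) : (0 : ℝ) < nm v := by
  have := two_le_nm v
  exact_mod_cast (by omega : 0 < nm v)

lemma one_le_nm (v : HeightOneSpectrum (𝓞 K)) : (1 : ℝ) ≤ nm v := by
  have := two_le_nm v
  exact_mod_cast (by omega : 1 ≤ nm v)

lemma hfin (x : ℕ) : {v : HeightOneSpectrum (𝓞 K) | nm v ≤ x}.Finite := by
  have h1 : Summable fun v : HeightOneSpectrum (𝓞 K) => (nm v : ℝ) ^ (-(2 : ℝ)) :=
    nm_summable (by norm_num)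
  have hx0 : (0 : ℝ) < (x + 1 : ℕ) := by exact_mod_cast Nat.succ_pos x
  have h2 : ∀ᶠ v in Filter.cofinite, (nm v : ℝ) ^ (-(2 : ℝ)) < (((x + 1 : ℕ) : ℝ)) ^ (-(2 : ℝ)) :=
    h1.tendsto_cofinite_zero.eventually (gt_mem_nhds (by positivity))
  refine Set.Finite.subset h2 fun v hv => ?_
  have hv' : nm v ≤ x := hv
  show ¬ ((nm v : ℝ) ^ (-(2 : ℝ)) < (((x + 1 : ℕ) : ℝ)) ^ (-(2 : ℝ)))
  rw [not_lt]
  exact Real.rpow_le_rpow_of_nonpos (nm_pos' v) (by exact_mod_cast (by omega : nm v ≤ x + 1)) (by norm_num)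

/-- the primes of norm at most `x` -/
noncomputable def FN (K : Type) [Field K] [NumberField K] (x : ℕ) :
    Finset (HeightOneSpectrum (𝓞 K)) := (hfin x).toFinset

lemma mem_FN {x : ℕ} {v : HeightOneSpectrum (𝓞 K)} : v ∈ FN K x ↔ nm v ≤ x := by
  unfold FN
  rw [Set.Finite.mem_toFinset]
  rfl

/-- the primes of norm in `(y, x]` -/
noncomputable def GG (K : Type) [Field K] [NumberField K] (y x : ℕ) :
    Finset (HeightOneSpectrum (𝓞 K)) := (FN K x).filter fun v => y < nm v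

lemma mem_GG {y x : ℕ} {v : HeightOneSpectrum (𝓞 K)} : v ∈ GG K y x ↔ y < nm v ∧ nm v ≤ x := by
  unfold GG
  rw [mem_filter, mem_FN, and_comm]

/-- the primes of norm `p` -/
noncomputable def FP (K : Type) [Field K] [NumberField K] (p : ℕ) :
    Finset (HeightOneSpectrum (𝓞 K)) := (FN K p).filter fun v => nm v = p

lemma mem_FP {p : ℕ} {v : HeightOneSpectrum (𝓞 K)} : v ∈ FP K p ↔ nm v = p := by
  unfold FP
  rw [mem_filter, mem_FN]
  exact ⟨fun h => h.2, fun h => ⟨h.le, h⟩⟩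

lemma card_FP {p : ℕ} (hp : p.Prime) : (FP K p).card ≤ Module.finrank ℚ K := by
  refine card_above ⟨p, hp⟩ _ fun v hv => ?_
  rw [mem_FP] at hv
  apply Subtype.ext
  show (Ideal.absNorm v.asIdeal).minFac = p
  have : Ideal.absNorm v.asIdeal = p := hv
  rw [this]
  exact hp.minFac_eq

lemma nm_mem (v : HeightOneSpectrum (𝓞 K)) : ((nm v : ℕ) : 𝓞 K) ∈ v.asIdeal :=
  Ideal.absNorm_mem v.asIdeal

/-- finite sums over primes of large norm -/
lemma sum_large {x θ : ℝ} (hθ : 0 ≤ θ) {f : HeightOneSpectrum (𝓞 K) → ℝ}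
    (hf0 : ∀ v, 0 ≤ f v) (hf : Summable f) {g : HeightOneSpectrum (𝓞 K) → ℝ}
    (hg : ∀ v, g v ≤ x * ((nm v : ℝ) ^ (-θ) * f v)) (hx : 0 ≤ x) {y : ℕ} (hy : 1 ≤ y)
    (F : Finset (HeightOneSpectrum (𝓞 K))) (hF : ∀ v ∈ F, y < nm v) :
    ∑ v ∈ F, g v ≤ x * (∑' v, f v) * (y : ℝ) ^ (-θ) := by
  have hy0 : (0 : ℝ) < y := by exact_mod_cast hy
  calc ∑ v ∈ F, g v ≤ ∑ v ∈ F, x * ((y : ℝ) ^ (-θ) * f v) := by
        refine Finset.sum_le_sum fun v hv => (hg v).trans ?_
        have h1 : (nm v : ℝ) ^ (-θ) ≤ (y : ℝ) ^ (-θ) :=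
          Real.rpow_le_rpow_of_nonpos hy0 (by exact_mod_cast (hF v hv).le) (by linarith)
        exact mul_le_mul_of_nonneg_left (mul_le_mul_of_nonneg_right h1 (hf0 v)) hx
    _ = x * ((y : ℝ) ^ (-θ)) * ∑ v ∈ F, f v := by
        rw [Finset.mul_sum]
        exact Finset.sum_congr rfl fun v _ => by ring
    _ ≤ x * ((y : ℝ) ^ (-θ)) * ∑' v, f v :=
        mul_le_mul_of_nonneg_left (hf.sum_le_tsum _ fun v _ => hf0 v) (by positivity)
    _ = _ := by ring

/-- the constants -/
noncomputable def Z1 (K : Type) [Field K] [NumberField K] (δ : ℝ) : ℝ :=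
  ∑' v : HeightOneSpectrum (𝓞 K), (nm v : ℝ) ^ (-(1 + δ / 2))

/-- the constants -/
noncomputable def Z2 (K : Type) [Field K] [NumberField K] (δ : ℝ) : ℝ :=
  ∑' v : HeightOneSpectrum (𝓞 K), if (nm v).Prime then (0 : ℝ) else (nm v : ℝ) ^ (-(1 / 2 + δ / 2))

lemma Z1_nonneg (δ : ℝ) : 0 ≤ Z1 K δ := tsum_nonneg fun v => by positivity

lemma Z2_nonneg (δ : ℝ) : 0 ≤ Z2 K δ := tsum_nonneg fun v => by split_ifs <;> positivity

/-- the primes of degree at least two -/
lemma summable_two {x : ℝ} (hx : 1 / 2 < x) :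
    Summable fun v : HeightOneSpectrum (𝓞 K) => if (nm v).Prime then (0 : ℝ) else (nm v : ℝ) ^ (-x) := by
  classical
  rw [← (Equiv.sigmaFiberEquiv (below (K := K))).summable_iff]
  rw [summable_sigma_of_nonneg (fun c => by
    dsimp only [Function.comp]
    split_ifs
    · exact le_rfl
    · positivity)]
  refine ⟨fun p => (Summable.of_finite), ?_⟩
  refine Summable.of_nonneg_of_le (fun p => tsum_nonneg fun v => ?_) (fun p => ?_)
    ((summable_primes_rpow (x := 2 * x) (by linarith)).mul_left (Module.finrank ℚ K : ℝ))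
  · dsimp only [Function.comp]
    split_ifs
    · exact le_rfl
    · positivity
  · rw [tsum_fintype]
    refine (Finset.sum_le_card_nsmul _ _ (((p : ℕ) : ℝ) ^ (-(2 * x))) fun v _ => ?_).trans ?_
    · dsimp only [Function.comp]
      split_ifs with hpr
      · positivity
      · obtain ⟨h1, h2, _⟩ := nm_eq v.1
        rw [v.2] at h1
        have hp1 : (1 : ℝ) ≤ (p : ℕ) := by exact_mod_cast p.prop.one_lt.le
        have e1 : nm ((Equiv.sigmaFiberEquiv (below (K := K))) ⟨p, v⟩) = nm v.1 := rfl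
        have hd2 : 2 ≤ deg v.1 := by
          by_contra hlt
          have h3 : deg v.1 = 1 := by omega
          apply hpr
          rw [e1, h1, h3, pow_one]
          exact p.prop
        rw [e1, h1]
        push_cast
        rw [← Real.rpow_natCast, ← Real.rpow_mul (by positivity)]
        refine Real.rpow_le_rpow_of_exponent_le hp1 ?_
        have hd2' : (2 : ℝ) ≤ (deg v.1 : ℝ) := by exact_mod_cast hd2
        nlinarith
    · rw [card_univ, nsmul_eq_mul]
      exact mul_le_mul_of_nonneg_right (by exact_mod_cast fiber_card_le p) (by positivity)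

end nf

section field
variable {k : Type*} [Field k] [Fintype k]

/-- sums over the residues -/
lemma sum_range_field {p : ℕ} (hp : p.Prime) (hcard : Fintype.card k = p) (F : k → ℂ) (B : k) :
    ∑ j ∈ range p, F (B + ((j : ℕ) : k)) = ∑ c, F c := by
  classical
  have hzero : ((p : ℕ) : k) = 0 := by rw [← hcard]; exact Nat.cast_card_eq_zero k
  have hcharP : CharP k p := by
    have h1 := ringChar.dvd hzero
    have h3 := ((Nat.dvd_prime hp).1 h1).resolve_left CharP.ringChar_ne_one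
    rw [← h3]
    exact ringChar.charP k
  have hinj : Set.InjOn (fun j : ℕ => B + (j : k)) (range p : Set ℕ) := by
    intro i hi j hj hij
    simp only [coe_range, Set.mem_Iio] at hi hj
    have h1 : (i : k) = (j : k) := add_left_cancel hij
    rw [CharP.cast_eq_iff_mod_eq k p] at h1
    rwa [Nat.mod_eq_of_lt hi, Nat.mod_eq_of_lt hj] at h1
  have himg : (range p).image (fun j : ℕ => B + (j : k)) = univ := by
    apply Finset.eq_univ_of_card
    rw [Finset.card_image_of_injOn hinj, card_range, hcard]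
  rw [← himg, Finset.sum_image hinj]

end field

section loc
variable {K : Type} [Field K] [NumberField K] {N M : ℕ}

/-- a system of numbers of absolute value at most one, depending on a residue class -/
structure Loc (e : 𝓞 K → HeightOneSpectrum (𝓞 K) → Fin N → ℂ) : Prop where
  le : ∀ t v j, ‖e t v j‖ ≤ 1
  congr : ∀ t t' v, t - t' ∈ v.asIdeal → e t v = e t' v

/-- the trace -/
noncomputable def tr (e : 𝓞 K → HeightOneSpectrum (𝓞 K) → Fin N → ℂ) (t : 𝓞 K)
    (v : HeightOneSpectrum (𝓞 K)) : ℂ := ∑ j, e t v j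

/-- the mean value of the trace over the residue classes -/
noncomputable def mm (e : 𝓞 K → HeightOneSpectrum (𝓞 K) → Fin N → ℂ)
    (v : HeightOneSpectrum (𝓞 K)) : ℂ :=
  (∑ᶠ τ : 𝓞 K ⧸ v.asIdeal, tr e (Quotient.out τ) v) / nm v

lemma finite_quot (v : HeightOneSpectrum (𝓞 K)) : Finite (𝓞 K ⧸ v.asIdeal) := by
  have h1 : nm v ≠ 0 := by have := two_le_nm v; omega
  unfold Pool.Agent.H921R2.TatePole.nm at h1
  rw [Ideal.absNorm_apply, Submodule.cardQuot_apply] at h1
  exact Nat.finite_of_card_ne_zero h1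

lemma card_quot (v : HeightOneSpectrum (𝓞 K)) : Nat.card (𝓞 K ⧸ v.asIdeal) = nm v := by
  unfold Pool.Agent.H921R2.TatePole.nm
  rw [Ideal.absNorm_apply, Submodule.cardQuot_apply]

lemma norm_sum_le_card {n : ℕ} {f : Fin n → ℂ} {c : ℝ} (hf : ∀ j, ‖f j‖ ≤ c) :
    ‖∑ j, f j‖ ≤ n * c := by
  refine (norm_sum_le _ _).trans ?_
  refine (Finset.sum_le_card_nsmul _ _ c fun j _ => hf j).trans ?_
  rw [card_univ, Fintype.card_fin, nsmul_eq_mul]

variable {e : 𝓞 K → HeightOneSpectrum (𝓞 K) → Fin N → ℂ}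

lemma Loc.tr_le (he : Loc e) (t : 𝓞 K) (v : HeightOneSpectrum (𝓞 K)) : ‖tr e t v‖ ≤ N := by
  have := norm_sum_le_card (fun j => he.le t v j)
  rw [mul_one] at this
  exact this

lemma Loc.tr_congr (he : Loc e) {t t' : 𝓞 K} {v : HeightOneSpectrum (𝓞 K)}
    (h : t - t' ∈ v.asIdeal) : tr e t v = tr e t' v := by
  unfold tr
  rw [he.congr t t' v h]

lemma Loc.mm_le (he : Loc e) (v : HeightOneSpectrum (𝓞 K)) : ‖mm e v‖ ≤ N := by
  have hfin := finite_quot v
  let _ : Fintype (𝓞 K ⧸ v.asIdeal) := Fintype.ofFinite _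
  have hcard : Fintype.card (𝓞 K ⧸ v.asIdeal) = nm v := by
    rw [← card_quot, Nat.card_eq_fintype_card]
  unfold mm
  rw [finsum_eq_sum_of_fintype, norm_div, Complex.norm_natCast, div_le_iff₀ (nm_pos' v)]
  refine (norm_sum_le _ _).trans ?_
  refine (Finset.sum_le_card_nsmul _ _ (N : ℝ) fun τ _ => he.tr_le _ v).trans ?_
  rw [card_univ, hcard, nsmul_eq_mul, mul_comm]

lemma Loc.sum_tr (he : Loc e) {v : HeightOneSpectrum (𝓞 K)} {p : ℕ} (hp : p.Prime) (hv : nm v = p)
    (b : 𝓞 K) : ∑ j ∈ range p, tr e (b + ((j : ℤ) : 𝓞 K)) v = p * mm e v := by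
  have hmax : v.asIdeal.IsMaximal := v.isMaximal
  have hfin := finite_quot v
  let _ : Fintype (𝓞 K ⧸ v.asIdeal) := Fintype.ofFinite _
  have hcard : Fintype.card (𝓞 K ⧸ v.asIdeal) = p := by
    rw [← hv, ← card_quot, Nat.card_eq_fintype_card]
  let _ : Field (𝓞 K ⧸ v.asIdeal) := Ideal.Quotient.field v.asIdeal
  have hp0 : (p : ℂ) ≠ 0 := by exact_mod_cast hp.ne_zero
  unfold mm
  rw [hv, mul_div_cancel₀ _ hp0, finsum_eq_sum_of_fintype,
    ← sum_range_field hp hcard (fun τ => tr e (Quotient.out τ) v) (Ideal.Quotient.mk v.asIdeal b)]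
  refine Finset.sum_congr rfl fun j _ => he.tr_congr ?_
  rw [← Ideal.Quotient.eq_zero_iff_mem, map_sub, sub_eq_zero, Ideal.Quotient.mk_out]
  rw [map_add, map_intCast, Int.cast_natCast]

end loc

end Pool.Agent.Y770.FM
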