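import Pool.Agent.Y770.FM.Base

/-!
# The Euler factors and their logarithms
-/

set_option autoImplicit false

open Finset NumberField IsDedekindDomain
open Pool.Agent.H921R2.TatePole (nm two_le_nm below deg nm_eq nm_summable fiber_card_le
  summable_primes_rpow card_above)
open Pool.Agent.Y770.EP (Sys SP PR mem_PR Good)

namespace Pool.Agent.Y770.FM

lemma log_sub {w : ℂ} (hw : ‖w‖ ≤ 1 / 2) : ‖-Complex.log (1 - w) - w‖ ≤ ‖w‖ ^ 2 := by
  have h1 : ‖-w‖ < 1 := by rw [norm_neg]; linarith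
  have h2 := Complex.norm_log_one_add_sub_self_le h1
  rw [norm_neg] at h2
  have h3 : ‖w‖ ^ 2 * (1 - ‖w‖)⁻¹ / 2 ≤ ‖w‖ ^ 2 := by
    have h4 : (1 - ‖w‖)⁻¹ ≤ 2 := by
      rw [inv_le_comm₀ (by linarith) (by norm_num)]
      linarith
    nlinarith [sq_nonneg ‖w‖, norm_nonneg w]
  have h5 : -Complex.log (1 - w) - w = -(Complex.log (1 + -w) - -w) := by
    rw [← sub_eq_add_neg]; ring
  rw [h5, norm_neg]
  linarith

lemma log_le {w : ℂ} (hw : ‖w‖ ≤ 1 / 2) : ‖-Complex.log (1 - w)‖ ≤ 2 * ‖w‖ := by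
  have h1 := log_sub hw
  calc ‖-Complex.log (1 - w)‖ = ‖(-Complex.log (1 - w) - w) + w‖ := by rw [sub_add_cancel]
    _ ≤ ‖-Complex.log (1 - w) - w‖ + ‖w‖ := norm_add_le _ _
    _ ≤ 2 * ‖w‖ := by nlinarith [norm_nonneg w]

section nf
variable {K : Type} [Field K] [NumberField K] {N M : ℕ}

/-- the Euler factor at `v` -/
noncomputable def fc (a : Fin N → ℂ) (g : Fin M → ℂ) (v : HeightOneSpectrum (𝓞 K)) (s : ℂ) : ℂ :=
  ∏ j, ∏ l, (1 - a j * g l * (nm v : ℂ) ^ (-s))⁻¹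

/-- the logarithm of the Euler factor at `v` -/
noncomputable def el (a : Fin N → ℂ) (g : Fin M → ℂ) (v : HeightOneSpectrum (𝓞 K)) (s : ℂ) : ℂ :=
  ∑ j, ∑ l, -Complex.log (1 - a j * g l * (nm v : ℂ) ^ (-s))

variable {a : Fin N → ℂ} {g : Fin M → ℂ} {v : HeightOneSpectrum (𝓞 K)} {s : ℂ}

lemma norm_q (v : HeightOneSpectrum (𝓞 K)) (s : ℂ) : ‖(nm v : ℂ) ^ (-s)‖ = (nm v : ℝ) ^ (-s.re) := by
  rw [Complex.norm_natCast_cpow_of_pos (by have := two_le_nm v; omega), Complex.neg_re]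

lemma term_le (ha : ∀ j, ‖a j‖ ≤ 1) (hg : ∀ l, ‖g l‖ ≤ 1) (j : Fin N) (l : Fin M) :
    ‖a j * g l * (nm v : ℂ) ^ (-s)‖ ≤ (nm v : ℝ) ^ (-s.re) := by
  rw [norm_mul, norm_mul, norm_q]
  refine mul_le_of_le_one_left (by positivity) ?_
  exact mul_le_one₀ (ha j) (norm_nonneg _) (hg l)

lemma fc_eq (ha : ∀ j, ‖a j‖ ≤ 1) (hg : ∀ l, ‖g l‖ ≤ 1) (hs : 0 < s.re) :
    fc a g v s = Complex.exp (el a g v s) := by
  have hq : (nm v : ℝ) ^ (-s.re) < 1 := by
    have h2 : (2 : ℝ) ≤ nm v := by exact_mod_cast two_le_nm v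
    exact Real.rpow_lt_one_of_one_lt_of_neg (by linarith) (by linarith)
  unfold fc el
  rw [Complex.exp_sum]
  refine Finset.prod_congr rfl fun j _ => ?_
  rw [Complex.exp_sum]
  refine Finset.prod_congr rfl fun l _ => ?_
  have h1 : 1 - a j * g l * (nm v : ℂ) ^ (-s) ≠ 0 := by
    intro h
    have h2 : a j * g l * (nm v : ℂ) ^ (-s) = 1 := (sub_eq_zero.1 h).symm
    have h3 := term_le (v := v) (s := s) ha hg j l
    rw [h2, norm_one] at h3
    linarith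
  rw [Complex.exp_neg, Complex.exp_log h1]

lemma norm_sum_sum_le {f : Fin N → Fin M → ℂ} {c : ℝ} (hf : ∀ j l, ‖f j l‖ ≤ c) :
    ‖∑ j, ∑ l, f j l‖ ≤ N * M * c := by
  have := norm_sum_le_card (fun j => norm_sum_le_card (hf j))
  rw [← mul_assoc] at this
  exact this

lemma el_sub (ha : ∀ j, ‖a j‖ ≤ 1) (hg : ∀ l, ‖g l‖ ≤ 1) (hq : (nm v : ℝ) ^ (-s.re) ≤ 1 / 2) :
    ‖el a g v s - (∑ j, a j) * (∑ l, g l) * (nm v : ℂ) ^ (-s)‖ ≤
      N * M * (nm v : ℝ) ^ (-(2 * s.re)) := by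
  have h1 : el a g v s - (∑ j, a j) * (∑ l, g l) * (nm v : ℂ) ^ (-s) =
      ∑ j, ∑ l, (-Complex.log (1 - a j * g l * (nm v : ℂ) ^ (-s)) -
        a j * g l * (nm v : ℂ) ^ (-s)) := by
    unfold el
    simp_rw [Finset.sum_sub_distrib]
    congr 1
    rw [Finset.sum_mul_sum, Finset.sum_mul]
    exact Finset.sum_congr rfl fun j _ => by rw [Finset.sum_mul]
  rw [h1]
  refine norm_sum_sum_le fun j l => ?_
  have h2 := term_le (v := v) (s := s) ha hg j l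
  refine (log_sub (h2.trans hq)).trans ?_
  have h3 := pow_le_pow_left₀ (norm_nonneg _) h2 2
  have h4 : ((nm v : ℝ) ^ (-s.re)) ^ 2 = (nm v : ℝ) ^ (-(2 * s.re)) := by
    rw [sq, ← Real.rpow_add (nm_pos' v)]
    congr 1
    ring
  rwa [h4] at h3

lemma el_le (ha : ∀ j, ‖a j‖ ≤ 1) (hg : ∀ l, ‖g l‖ ≤ 1) (hq : (nm v : ℝ) ^ (-s.re) ≤ 1 / 2) :
    ‖el a g v s‖ ≤ 2 * (N * M) * (nm v : ℝ) ^ (-s.re) := by
  unfold el
  refine (norm_sum_sum_le (c := 2 * (nm v : ℝ) ^ (-s.re)) fun j l => ?_).trans (le_of_eq (by ring))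
  have h2 := term_le (v := v) (s := s) ha hg j l
  refine (log_le (h2.trans hq)).trans ?_
  linarith

lemma half_of_four (hv : 4 ≤ nm v) (hσ : 1 / 2 ≤ s.re) : (nm v : ℝ) ^ (-s.re) ≤ 1 / 2 := by
  have h4 : (4 : ℝ) ≤ nm v := by exact_mod_cast hv
  calc (nm v : ℝ) ^ (-s.re) ≤ (nm v : ℝ) ^ (-(1 / 2) : ℝ) :=
        Real.rpow_le_rpow_of_exponent_le (by linarith) (by linarith)
    _ ≤ (4 : ℝ) ^ (-(1 / 2) : ℝ) := Real.rpow_le_rpow_of_nonpos (by norm_num) h4 (by norm_num)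
    _ = 1 / 2 := by
        rw [Real.rpow_neg (by norm_num), ← Real.sqrt_eq_rpow,
          show (4 : ℝ) = 2 ^ 2 by norm_num, Real.sqrt_sq (by norm_num)]
        norm_num

lemma half_of_one (hσ : 1 ≤ s.re) : (nm v : ℝ) ^ (-s.re) ≤ 1 / 2 := by
  have h2 : (2 : ℝ) ≤ nm v := by exact_mod_cast two_le_nm v
  calc (nm v : ℝ) ^ (-s.re) ≤ (nm v : ℝ) ^ (-1 : ℝ) :=
        Real.rpow_le_rpow_of_exponent_le (by linarith) (by linarith)
    _ ≤ 1 / 2 := by
        rw [Real.rpow_neg_one, one_div]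
        exact inv_anti₀ (by norm_num) h2

/-- the coefficients, without the mean values -/
noncomputable def gp (e : 𝓞 K → HeightOneSpectrum (𝓞 K) → Fin N → ℂ)
    (γ : HeightOneSpectrum (𝓞 K) → Fin M → ℂ) (b : 𝓞 K) (p : ℕ) (n : ℤ) : ℂ :=
  ∑ v ∈ FP K p, (tr e (b + (n : 𝓞 K)) v - mm e v) * ∑ l, γ v l

variable {e : 𝓞 K → HeightOneSpectrum (𝓞 K) → Fin N → ℂ} {γ : HeightOneSpectrum (𝓞 K) → Fin M → ℂ}

omit [NumberField K] in
lemma norm_sum_γ (hγ : ∀ v l, ‖γ v l‖ ≤ 1) (v : HeightOneSpectrum (𝓞 K)) : ‖∑ l, γ v l‖ ≤ M := by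
  have := norm_sum_le_card (fun l => hγ v l)
  rw [mul_one] at this
  exact this

lemma dev_le (he : Loc e) (hγ : ∀ v l, ‖γ v l‖ ≤ 1) (t : 𝓞 K) (v : HeightOneSpectrum (𝓞 K)) :
    ‖(tr e t v - mm e v) * ∑ l, γ v l‖ ≤ 2 * (N * M) := by
  rw [norm_mul]
  have h1 : ‖tr e t v - mm e v‖ ≤ 2 * N := by
    refine (norm_sub_le _ _).trans ?_
    linarith [he.tr_le t v, he.mm_le v]
  calc ‖tr e t v - mm e v‖ * ‖∑ l, γ v l‖ ≤ (2 * N) * M :=
        mul_le_mul h1 (norm_sum_γ hγ v) (norm_nonneg _) (by positivity)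
    _ = _ := by ring

lemma sys_gp (he : Loc e) (hγ : ∀ v l, ‖γ v l‖ ≤ 1) (b : 𝓞 K) :
    Sys (Module.finrank ℚ K * (2 * (N * M)) + 1) (gp e γ b) := by
  refine ⟨fun p hp n => ?_, fun p hp => ?_, fun p hp n => ?_⟩
  · unfold gp
    refine Finset.sum_congr rfl fun v hv => ?_
    rw [mem_FP] at hv
    have h1 : tr e (b + ((n + (p : ℤ) : ℤ) : 𝓞 K)) v = tr e (b + (n : 𝓞 K)) v := by
      refine he.tr_congr ?_
      have h2 := nm_mem v
      rw [hv] at h2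
      have h3 : b + ((n + (p : ℤ) : ℤ) : 𝓞 K) - (b + (n : 𝓞 K)) = ((p : ℕ) : 𝓞 K) := by
        push_cast; ring
      rw [h3]
      exact h2
    rw [h1]
  · unfold gp
    rw [Finset.sum_comm]
    refine Finset.sum_eq_zero fun v hv => ?_
    rw [mem_FP] at hv
    rw [← Finset.sum_mul, Finset.sum_sub_distrib, he.sum_tr hp hv, Finset.sum_const, card_range,
      nsmul_eq_mul, sub_self, zero_mul]
  · unfold gp
    refine (norm_sum_le _ _).trans ?_
    refine (Finset.sum_le_card_nsmul _ _ (2 * (N * M) : ℝ) fun v _ => dev_le he hγ _ v).trans ?_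
    rw [nsmul_eq_mul]
    have h1 : ((FP K p).card : ℝ) ≤ Module.finrank ℚ K := by exact_mod_cast card_FP hp
    have h2 : (0 : ℝ) ≤ 2 * (N * M) := by positivity
    nlinarith

/-- the sums over the primes of degree one as sums over the rational primes -/
lemma sum_deg_one (e : 𝓞 K → HeightOneSpectrum (𝓞 K) → Fin N → ℂ)
    (γ : HeightOneSpectrum (𝓞 K) → Fin M → ℂ) (b : 𝓞 K) (n : ℤ) (s : ℂ) (y x : ℕ) :
    ∑ v ∈ (GG K y x).filter fun v => (nm v).Prime,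
      (tr e (b + (n : 𝓞 K)) v - mm e v) * (∑ l, γ v l) * (nm v : ℂ) ^ (-s) =
    SP (fun p => gp e γ b p n) s y x := by
  classical
  unfold SP
  rw [← Finset.sum_fiberwise_of_maps_to (g := fun v : HeightOneSpectrum (𝓞 K) => nm v)
    (t := PR y x)]
  · refine Finset.sum_congr rfl fun p hp => ?_
    obtain ⟨⟨hp1, hp2⟩, hpp⟩ := mem_PR.1 hp
    unfold gp
    rw [Finset.sum_mul]
    refine Finset.sum_congr ?_ fun v hv => ?_
    · ext v
      simp only [mem_filter, mem_GG, mem_FP]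
      constructor
      · rintro ⟨_, h⟩; exact h
      · intro h
        rw [h]
        exact ⟨⟨⟨hp1, hp2⟩, hpp⟩, rfl⟩
    · rw [mem_FP] at hv
      rw [hv]
  · intro v hv
    rw [mem_filter, mem_GG] at hv
    exact mem_PR.2 hv

/-- the logarithm of the Euler factor without the mean value -/
noncomputable def ED (e : 𝓞 K → HeightOneSpectrum (𝓞 K) → Fin N → ℂ)
    (γ : HeightOneSpectrum (𝓞 K) → Fin M → ℂ) (t : 𝓞 K) (s : ℂ) (v : HeightOneSpectrum (𝓞 K)) : ℂ :=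
  el (e t v) (γ v) v s - mm e v * (∑ l, γ v l) * (nm v : ℂ) ^ (-s)

/-- **The logarithm of a piece of the Euler product.** -/
theorem strip_log (he : Loc e) (hγ : ∀ v l, ‖γ v l‖ ≤ 1) {b : 𝓞 K} {δ c : ℝ} (hδ : 0 < δ) {T : ℕ}
    {n : ℤ} (hG : Good δ c T fun p => gp e γ b p n) {s : ℂ} (hs : 1 / 2 + δ ≤ s.re)
    (hs2 : |s.im| ≤ (T : ℝ) ^ c) {y x : ℕ} (hy4 : 4 ≤ y) (hy : (Real.log T) ^ (4 / δ) ≤ y)
    (hx : (x : ℝ) ≤ (T : ℝ) ^ c) :
    ‖∑ v ∈ GG K y x, ED e γ (b + (n : 𝓞 K)) s v‖ ≤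
      (1 + ((N * M) * Z1 K δ + 2 * (N * M) * Z2 K δ)) * (y : ℝ) ^ (-(δ / 16)) := by
  classical
  set t : 𝓞 K := b + (n : 𝓞 K) with ht
  set h : HeightOneSpectrum (𝓞 K) → ℂ := fun v =>
    (tr e t v - mm e v) * (∑ l, γ v l) * (nm v : ℂ) ^ (-s) with hh
  have hy1 : 1 ≤ y := by omega
  have hyr : (1 : ℝ) ≤ y := by exact_mod_cast hy1
  have hmain2 : ‖∑ v ∈ (GG K y x).filter fun v => (nm v).Prime, h v‖ ≤ (y : ℝ) ^ (-(δ / 16)) := by
    rw [show ∑ v ∈ (GG K y x).filter fun v => (nm v).Prime, h v = SP (fun p => gp e γ b p n) s y x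
      from sum_deg_one e γ b n s y x]
    exact hG s hs hs2 y x hy hx
  have herr1 : ‖∑ v ∈ GG K y x, (ED e γ t s v - h v)‖ ≤ (N * M) * Z1 K δ * (y : ℝ) ^ (-(δ / 2)) := by
    refine (norm_sum_le _ _).trans ?_
    refine (Finset.sum_le_sum (g := fun v : HeightOneSpectrum (𝓞 K) =>
      (N * M) * (nm v : ℝ) ^ (-(2 * s.re))) fun v hv => ?_).trans ?_
    · rw [mem_GG] at hv
      have h1 : ED e γ t s v - h v = el (e t v) (γ v) v s -
          (∑ j, e t v j) * (∑ l, γ v l) * (nm v : ℂ) ^ (-s) := by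
        rw [hh]
        unfold ED tr
        ring
      rw [h1]
      exact el_sub (he.le t v) (hγ v) (half_of_four (by omega) (by linarith))
    · refine sum_large (x := N * M) (θ := δ / 2) (by positivity) (fun v => by positivity)
        (nm_summable (x := 1 + δ / 2) (by linarith)) (fun v => ?_) (by positivity) hy1 _ fun v hv => ?_
      · refine mul_le_mul_of_nonneg_left ?_ (by positivity)
        rw [← Real.rpow_add (nm_pos' v)]
        exact Real.rpow_le_rpow_of_exponent_le (one_le_nm v) (by linarith)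
      · rw [mem_GG] at hv
        exact hv.1
  have herr2 : ‖∑ v ∈ (GG K y x).filter fun v => ¬ (nm v).Prime, h v‖ ≤
      2 * (N * M) * Z2 K δ * (y : ℝ) ^ (-(δ / 2)) := by
    refine (norm_sum_le _ _).trans ?_
    refine (Finset.sum_le_sum (g := fun v : HeightOneSpectrum (𝓞 K) =>
      if (nm v).Prime then (0 : ℝ) else 2 * (N * M) * (nm v : ℝ) ^ (-s.re)) fun v hv => ?_).trans ?_
    · rw [mem_filter] at hv
      rw [if_neg hv.2, hh]
      dsimp only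
      rw [norm_mul, norm_q]
      exact mul_le_mul_of_nonneg_right (dev_le he hγ t v) (by positivity)
    · refine sum_large (x := 2 * (N * M)) (θ := δ / 2) (by positivity)
        (fun v => by split_ifs <;> positivity)
        (summable_two (x := 1 / 2 + δ / 2) (by linarith)) (fun v => ?_) (by positivity) hy1 _
        fun v hv => ?_
      · split_ifs with hp
        · simp
        · refine mul_le_mul_of_nonneg_left ?_ (by positivity)
          rw [← Real.rpow_add (nm_pos' v)]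
          exact Real.rpow_le_rpow_of_exponent_le (one_le_nm v) (by linarith)
      · rw [mem_filter, mem_GG] at hv
        exact hv.1.1
  have hdec : ∑ v ∈ GG K y x, ED e γ t s v =
      (∑ v ∈ GG K y x, (ED e γ t s v - h v)) +
      (∑ v ∈ (GG K y x).filter fun v => (nm v).Prime, h v) +
      ∑ v ∈ (GG K y x).filter fun v => ¬ (nm v).Prime, h v := by
    rw [add_assoc, Finset.sum_filter_add_sum_filter_not, Finset.sum_sub_distrib, sub_add_cancel]
  rw [hdec]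
  have hy16 : (y : ℝ) ^ (-(δ / 2)) ≤ (y : ℝ) ^ (-(δ / 16)) :=
    Real.rpow_le_rpow_of_exponent_le hyr (by linarith)
  have hz1 := Z1_nonneg (K := K) δ
  have hz2 := Z2_nonneg (K := K) δ
  have f1 : (N * M) * Z1 K δ * (y : ℝ) ^ (-(δ / 2)) ≤ (N * M) * Z1 K δ * (y : ℝ) ^ (-(δ / 16)) :=
    mul_le_mul_of_nonneg_left hy16 (by positivity)
  have f2 : 2 * (N * M) * Z2 K δ * (y : ℝ) ^ (-(δ / 2)) ≤
      2 * (N * M) * Z2 K δ * (y : ℝ) ^ (-(δ / 16)) := mul_le_mul_of_nonneg_left hy16 (by positivity)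
  calc _ ≤ _ + _ := norm_add_le _ _
    _ ≤ (_ + _) + _ := by gcongr; exact norm_add_le _ _
    _ ≤ ((N * M) * Z1 K δ * (y : ℝ) ^ (-(δ / 16)) + (y : ℝ) ^ (-(δ / 16))) +
          2 * (N * M) * Z2 K δ * (y : ℝ) ^ (-(δ / 16)) :=
        add_le_add (add_le_add (herr1.trans f1) hmain2) (herr2.trans f2)
    _ = _ := by ring

end nf

end Pool.Agent.Y770.FM
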