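import Pool.Agent.Y770.FM.Fac

/-!
# The partial products and the full product, without the mean values
-/

set_option autoImplicit false

open Finset NumberField IsDedekindDomain Filter
open Pool.Agent.H921R2.TatePole (nm two_le_nm nm_summable)

namespace Pool.Agent.Y770.FM

section nf
variable {K : Type} [Field K] [NumberField K] {N M : ℕ}

/-- the partial product, divided by the product of the mean values -/
noncomputable def QQ (e : 𝓞 K → HeightOneSpectrum (𝓞 K) → Fin N → ℂ)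
    (γ : HeightOneSpectrum (𝓞 K) → Fin M → ℂ) (t : 𝓞 K) (s : ℂ) (x : ℕ) : ℂ :=
  (∏ v ∈ FN K x, fc (e t v) (γ v) v s) *
    Complex.exp (-∑ v ∈ FN K x, mm e v * (∑ l, γ v l) * (nm v : ℂ) ^ (-s))

/-- the full product, divided by the product of the mean values -/
noncomputable def QL (e : 𝓞 K → HeightOneSpectrum (𝓞 K) → Fin N → ℂ)
    (γ : HeightOneSpectrum (𝓞 K) → Fin M → ℂ) (t : 𝓞 K) (s : ℂ) : ℂ :=
  (∏' v, fc (e t v) (γ v) v s) *
    Complex.exp (-∑' v, mm e v * (∑ l, γ v l) * (nm v : ℂ) ^ (-s))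

variable {e : 𝓞 K → HeightOneSpectrum (𝓞 K) → Fin N → ℂ} {γ : HeightOneSpectrum (𝓞 K) → Fin M → ℂ}
  {t : 𝓞 K} {s : ℂ}

lemma QQ_exp (he : Loc e) (hγ : ∀ v l, ‖γ v l‖ ≤ 1) (hs : 0 < s.re) (x : ℕ) :
    QQ e γ t s x = Complex.exp (∑ v ∈ FN K x, ED e γ t s v) := by
  have h1 : ∏ v ∈ FN K x, fc (e t v) (γ v) v s =
      Complex.exp (∑ v ∈ FN K x, el (e t v) (γ v) v s) := by
    rw [Complex.exp_sum]
    exact Finset.prod_congr rfl fun v _ => fc_eq (he.le t v) (hγ v) hs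
  unfold QQ ED
  rw [h1, ← Complex.exp_add, Finset.sum_sub_distrib, sub_eq_add_neg]

open Classical in
lemma FN_eq {y x : ℕ} (hyx : y ≤ x) : FN K x = GG K y x ∪ FN K y := by
  ext v
  simp only [mem_union, mem_GG, mem_FN]
  omega

lemma FN_disj (y x : ℕ) : Disjoint (GG K y x) (FN K y) := by
  rw [Finset.disjoint_left]
  intro v hv hv'
  simp only [mem_GG, mem_FN] at hv hv'
  omega

lemma sum_FN {y x : ℕ} (hyx : y ≤ x) (f : HeightOneSpectrum (𝓞 K) → ℂ) :
    ∑ v ∈ FN K x, f v - ∑ v ∈ FN K y, f v = ∑ v ∈ GG K y x, f v := by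
  classical
  rw [FN_eq hyx, Finset.sum_union (FN_disj y x), add_sub_cancel_right]

lemma QQ_div (he : Loc e) (hγ : ∀ v l, ‖γ v l‖ ≤ 1) (hs : 0 < s.re) {y x : ℕ} (hyx : y ≤ x) :
    QQ e γ t s x / QQ e γ t s y = Complex.exp (∑ v ∈ GG K y x, ED e γ t s v) := by
  rw [QQ_exp he hγ hs, QQ_exp he hγ hs, ← Complex.exp_sub, sum_FN hyx]

lemma ED_le (he : Loc e) (hγ : ∀ v l, ‖γ v l‖ ≤ 1) {ε : ℝ} (hε : 0 ≤ ε) (hs : 1 + ε ≤ s.re)
    (v : HeightOneSpectrum (𝓞 K)) : ‖ED e γ t s v‖ ≤ 3 * (N * M) * (nm v : ℝ) ^ (-(1 + ε)) := by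
  have h1 : (nm v : ℝ) ^ (-s.re) ≤ (nm v : ℝ) ^ (-(1 + ε)) :=
    Real.rpow_le_rpow_of_exponent_le (one_le_nm v) (by linarith)
  have h2 := el_le (v := v) (s := s) (he.le t v) (hγ v) (half_of_one (by linarith))
  have h3 : ‖mm e v * (∑ l, γ v l) * (nm v : ℂ) ^ (-s)‖ ≤ (N * M) * (nm v : ℝ) ^ (-s.re) := by
    rw [norm_mul, norm_mul, norm_q]
    exact mul_le_mul_of_nonneg_right (mul_le_mul (he.mm_le v) (norm_sum_γ hγ v) (norm_nonneg _)
      (by positivity)) (by positivity)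
  unfold ED
  refine (norm_sub_le _ _).trans ((add_le_add h2 h3).trans ?_)
  have h4 : (0 : ℝ) ≤ 3 * (N * M) := by positivity
  nlinarith

lemma ED_summable (he : Loc e) (hγ : ∀ v l, ‖γ v l‖ ≤ 1) {ε : ℝ} (hε : 0 < ε) (hs : 1 + ε ≤ s.re) :
    Summable (ED e γ t s) :=
  Summable.of_norm_bounded ((nm_summable (x := 1 + ε) (by linarith)).mul_left (3 * ((N : ℝ) * M)))
    (ED_le he hγ hε.le hs)

lemma mean_summable (he : Loc e) (hγ : ∀ v l, ‖γ v l‖ ≤ 1) {ε : ℝ} (hε : 0 < ε)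
    (hs : 1 + ε ≤ s.re) : Summable fun v => mm e v * (∑ l, γ v l) * (nm v : ℂ) ^ (-s) := by
  refine Summable.of_norm_bounded ((nm_summable (x := 1 + ε) (by linarith)).mul_left ((N : ℝ) * M))
    fun v => ?_
  rw [norm_mul, norm_mul, norm_q]
  refine mul_le_mul (mul_le_mul (he.mm_le v) (norm_sum_γ hγ v) (norm_nonneg _)
      (by positivity)) ?_ (by positivity) (by positivity)
  exact Real.rpow_le_rpow_of_exponent_le (one_le_nm v) (by linarith)

lemma QL_eq (he : Loc e) (hγ : ∀ v l, ‖γ v l‖ ≤ 1) {ε : ℝ} (hε : 0 < ε) (hs : 1 + ε ≤ s.re) :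
    QL e γ t s = Complex.exp (∑' v, ED e γ t s v) := by
  have h1 := ED_summable (t := t) he hγ hε hs
  have h2 := mean_summable he hγ hε hs
  have h3 : Summable fun v => el (e t v) (γ v) v s := by
    refine (h1.add h2).congr fun v => ?_
    unfold ED
    rw [sub_add_cancel]
  have h4 : ∑' v, ED e γ t s v = ∑' v, el (e t v) (γ v) v s -
      ∑' v, mm e v * (∑ l, γ v l) * (nm v : ℂ) ^ (-s) := h3.tsum_sub h2
  rw [h4, Complex.exp_sub, ← h3.hasSum.cexp.tprod_eq]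
  unfold QL
  rw [Complex.exp_neg, div_eq_mul_inv]
  congr 1
  refine tprod_congr fun v => ?_
  exact fc_eq (he.le t v) (hγ v) (by linarith)

/-- the tail of the logarithm -/
lemma tail_le (he : Loc e) (hγ : ∀ v l, ‖γ v l‖ ≤ 1) {C ε : ℝ} (hε : 0 < ε)
    (hsum : Summable fun v : HeightOneSpectrum (𝓞 K) => Real.log (nm v) * (nm v : ℝ) ^ (-(1 + ε)))
    (hC : ε * ∑' v : HeightOneSpectrum (𝓞 K), Real.log (nm v) * (nm v : ℝ) ^ (-(1 + ε)) ≤ C)
    (hs : 1 + ε ≤ s.re) {z : ℕ} (hz : 2 ≤ z) :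
    ‖∑' v, ED e γ t s v - ∑ v ∈ FN K z, ED e γ t s v‖ ≤ 3 * (N * M) * (C / ε) / Real.log z := by
  classical
  have h1 := ED_summable (t := t) he hγ hε hs
  have hz1 : (1 : ℝ) < z := by exact_mod_cast (by omega : 1 < z)
  have hlz : 0 < Real.log z := Real.log_pos hz1
  have h2 : ∑' v, ED e γ t s v - ∑ v ∈ FN K z, ED e γ t s v =
      ∑' v, (if v ∈ FN K z then 0 else ED e γ t s v) := by
    have h3 : ∑ v ∈ FN K z, ED e γ t s v = ∑' v, (if v ∈ FN K z then ED e γ t s v else 0) := by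
      rw [tsum_eq_sum (s := FN K z) (fun v hv => if_neg hv)]
      exact Finset.sum_congr rfl fun v hv => (if_pos hv).symm
    have h4 : Summable fun v => (if v ∈ FN K z then ED e γ t s v else 0) :=
      summable_of_ne_finset_zero (s := FN K z) fun v hv => if_neg hv
    rw [h3, ← h1.tsum_sub h4]
    refine tsum_congr fun v => ?_
    split_ifs
    · rw [sub_self]
    · rw [sub_zero]
  rw [h2]
  have h5 : ∀ v : HeightOneSpectrum (𝓞 K), ‖(if v ∈ FN K z then 0 else ED e γ t s v : ℂ)‖ ≤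
      3 * (N * M) / Real.log z * (Real.log (nm v) * (nm v : ℝ) ^ (-(1 + ε))) := by
    intro v
    have hlq : 0 ≤ Real.log (nm v) := Real.log_nonneg (one_le_nm v)
    split_ifs with hv
    · rw [norm_zero]
      positivity
    · rw [mem_FN, not_le] at hv
      refine (ED_le he hγ hε.le hs v).trans ?_
      have h6 : Real.log z ≤ Real.log (nm v) :=
        Real.log_le_log (by linarith) (by exact_mod_cast hv.le)
      have h7 : (0 : ℝ) ≤ 3 * (N * M) * (nm v : ℝ) ^ (-(1 + ε)) := by positivity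
      calc 3 * (N * M) * (nm v : ℝ) ^ (-(1 + ε)) = 3 * (N * M) * (nm v : ℝ) ^ (-(1 + ε)) * 1 := by ring
        _ ≤ 3 * (N * M) * (nm v : ℝ) ^ (-(1 + ε)) * (Real.log (nm v) / Real.log z) :=
            mul_le_mul_of_nonneg_left ((one_le_div hlz).2 h6) h7
        _ = _ := by ring
  have h8 := tsum_of_norm_bounded (hsum.mul_left (3 * (N * M) / Real.log z)).hasSum h5
  refine h8.trans ?_
  rw [tsum_mul_left]
  have h9 : ∑' v : HeightOneSpectrum (𝓞 K), Real.log (nm v) * (nm v : ℝ) ^ (-(1 + ε)) ≤ C / ε := by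
    rw [le_div_iff₀ hε, mul_comm]
    exact hC
  calc 3 * (N * M) / Real.log z *
        ∑' v : HeightOneSpectrum (𝓞 K), Real.log (nm v) * (nm v : ℝ) ^ (-(1 + ε))
      ≤ 3 * (N * M) / Real.log z * (C / ε) := mul_le_mul_of_nonneg_left h9 (by positivity)
    _ = _ := by ring

end nf

end Pool.Agent.Y770.FM
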